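import Mathlib

/-!
A T1 space that is Markov k-Menger but not Markov k-Rothberger.

The points are the pairs (x, n) of a point x of the Stone-Cech compactification B of the discrete
set of reals and a natural number n; the basic neighbourhoods of (x, n) consist of (x, n) and of the
pairs (y, m) with m < n and y different from x in a neighbourhood of x.  The compact sets are
finite, the space is uncountable, and every k-cover has a finite subfamily that captures all sets of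
at most k points of the levels up to n.
-/

namespace Pool.Agent.Results.MP_41ff45_gt.UltrafilterTower

open Set Topology

/-- An open cover such that every compact set lies in a member. -/
def IsKCover {X : Type} [TopologicalSpace X] (𝒰 : Set (Set X)) : Prop :=
  (∀ U ∈ 𝒰, IsOpen U) ∧ ⋃₀ 𝒰 = univ ∧ ∀ K : Set X, IsCompact K → ∃ U ∈ 𝒰, K ⊆ U

/-- P2 has a winning Markov strategy in the finite-selection game on k-covers. -/
def MarkovKMenger (X : Type) [TopologicalSpace X] : Prop :=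
  ∃ σ : Set (Set X) → ℕ → Set (Set X),
    (∀ 𝒰 n, IsKCover 𝒰 → σ 𝒰 n ⊆ 𝒰 ∧ (σ 𝒰 n).Finite) ∧
    ∀ 𝒰 : ℕ → Set (Set X), (∀ n, IsKCover (𝒰 n)) → IsKCover (⋃ n, σ (𝒰 n) n)

/-- P2 has a winning Markov strategy in the single-selection game on k-covers. -/
def MarkovKRothberger (X : Type) [TopologicalSpace X] : Prop :=
  ∃ σ : Set (Set X) → ℕ → Set X,
    (∀ 𝒰 n, IsKCover 𝒰 → σ 𝒰 n ∈ 𝒰) ∧
    ∀ 𝒰 : ℕ → Set (Set X), (∀ n, IsKCover (𝒰 n)) → IsKCover (range fun n => σ (𝒰 n) n)

/-! ### No nontrivial convergent sequences of ultrafilters -/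

lemma nc {α : Type} (S : Set (Ultrafilter α)) (hS : S.Infinite) (v : Ultrafilter α) :
    ∃ U ∈ 𝓝 v, (S \ U).Infinite := by
  by_contra hcon
  push Not at hcon
  have hfin : ∀ A : Set α, A ∈ v → {u ∈ S | A ∉ u}.Finite := by
    intro A hA
    have h1 : {u : Ultrafilter α | A ∈ u} ∈ 𝓝 v :=
      (ultrafilter_isOpen_basic A).mem_nhds hA
    have h2 := hcon _ h1
    exact h2.subset (fun u hu => ⟨hu.1, hu.2⟩)
  have hstep : ∀ R : {R : Set α // R ∈ v}, ∃ (u : Ultrafilter α) (A : Set α), u ∈ S ∧ A ∈ u ∧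
      A ⊆ R.1 ∧ R.1 \ A ∈ v := by
    rintro ⟨R, hR⟩
    have h1 : (S \ ({u ∈ S | R ∉ u} ∪ {v})).Infinite :=
      hS.sdiff ((hfin R hR).union (finite_singleton v))
    obtain ⟨u, huS, hu⟩ := h1.nonempty
    have huR : R ∈ u := by
      by_contra h
      exact hu (Or.inl ⟨huS, h⟩)
    have huv : u ≠ v := fun h => hu (Or.inr h)
    obtain ⟨A, hA, hAv⟩ : ∃ A, A ∈ u ∧ A ∉ v := by
      by_contra h
      push Not at h
      exact huv (Ultrafilter.coe_le_coe.1 (fun A hA => by
        by_contra hAu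
        have h3 := h _ (Ultrafilter.compl_mem_iff_notMem.2 hAu)
        exact Ultrafilter.compl_notMem_iff.2 hA h3))
    refine ⟨u, A ∩ R, huS, Filter.inter_mem hA huR, inter_subset_right, ?_⟩
    have h3 : Aᶜ ∈ v := Ultrafilter.compl_mem_iff_notMem.2 hAv
    exact Filter.mem_of_superset (Filter.inter_mem hR h3) (fun x hx => ⟨hx.1, fun h => hx.2 h.1⟩)
  choose u A huS hAu hAR hRA using hstep
  set R : ℕ → {R : Set α // R ∈ v} := fun n => Nat.rec ⟨univ, Filter.univ_mem⟩
    (fun _ R => ⟨R.1 \ A R, hRA R⟩) n with hR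
  have hRs : ∀ n, (R (n + 1)).1 = (R n).1 \ A (R n) := fun n => rfl
  have hdec : ∀ m n, m ≤ n → (R n).1 ⊆ (R m).1 := by
    intro m n hmn
    induction n, hmn using Nat.le_induction with
    | base => exact subset_rfl
    | succ n _ ih =>
      rw [hRs]
      exact sdiff_subset.trans ih
  have hdisj : ∀ m n, m < n → Disjoint (A (R m)) (A (R n)) := by
    intro m n hmn
    rw [Set.disjoint_left]
    intro x hx hx2
    have h1 : x ∈ (R (m + 1)).1 := hdec (m + 1) n hmn (hAR _ hx2)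
    rw [hRs] at h1
    exact h1.2 hx
  have hdisj' : ∀ m n, m ≠ n → Disjoint (A (R m)) (A (R n)) := by
    intro m n hmn
    rcases lt_or_gt_of_ne hmn with h | h
    · exact hdisj m n h
    · exact (hdisj n m h).symm
  have hinj : ∀ m n, m ≠ n → u (R m) ≠ u (R n) := by
    intro m n hmn h
    have h1 : A (R m) ∩ A (R n) ∈ u (R m) := Filter.inter_mem (hAu _) (by rw [h]; exact hAu _)
    rw [(hdisj' m n hmn).inter_eq] at h1
    exact Ultrafilter.empty_notMem h1
  set E : Set α := ⋃ i, A (R (2 * i)) with hE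
  -- a set of the ultrafilter v lies in u (R k) for some k of the prescribed form
  have hget : ∀ (B : Set α) (g : ℕ → ℕ), Function.Injective g → B ∈ v →
      ∃ i, B ∈ u (R (g i)) := by
    intro B g hg hB
    by_contra h
    push Not at h
    have h1 : (range (fun i => u (R (g i)))).Infinite := by
      apply infinite_range_of_injective
      intro i j hij
      by_contra hne
      exact hinj (g i) (g j) (fun h => hne (hg h)) hij
    apply h1
    refine (hfin B hB).subset ?_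
    rintro _ ⟨i, rfl⟩
    exact ⟨huS _, h i⟩
  rcases Ultrafilter.em v E with h | h
  · obtain ⟨i, hi⟩ := hget E (fun i => 2 * i + 1) (fun i j hij => by simpa using hij) h
    have h1 : E ∩ A (R (2 * i + 1)) ∈ u (R (2 * i + 1)) := Filter.inter_mem hi (hAu _)
    have h2 : E ∩ A (R (2 * i + 1)) = ∅ := by
      rw [hE, iUnion_inter]
      apply iUnion_eq_empty.2
      intro j
      exact (hdisj' (2 * j) (2 * i + 1) (by omega)).inter_eq
    rw [h2] at h1
    exact Ultrafilter.empty_notMem h1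
  · obtain ⟨i, hi⟩ := hget Eᶜ (fun i => 2 * i) (fun i j hij => by simpa using hij) h
    have h1 : Eᶜ ∩ A (R (2 * i)) ∈ u (R (2 * i)) := Filter.inter_mem hi (hAu _)
    have h2 : Eᶜ ∩ A (R (2 * i)) = ∅ := by
      ext x
      simp only [mem_inter_iff, mem_compl_iff, mem_empty_iff_false, iff_false, not_and]
      intro hx hx2
      exact hx (mem_iUnion.2 ⟨i, hx2⟩)
    rw [h2] at h1
    exact Ultrafilter.empty_notMem h1

lemma nc_finite {α : Type} (F : Set (Ultrafilter α)) (hF : F.Finite) :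
    ∀ S : Set (Ultrafilter α), S.Infinite →
      ∃ D ⊆ S, D.Infinite ∧ ∀ y ∈ F, ∃ U ∈ 𝓝 y, Disjoint D U := by
  induction F, hF using Set.Finite.induction_on with
  | empty =>
    intro S hS
    exact ⟨S, subset_rfl, hS, fun y hy => absurd hy (notMem_empty y)⟩
  | @insert a F _ _ ih =>
    intro S hS
    obtain ⟨U, hU, hU2⟩ := nc S hS a
    obtain ⟨D, hDS, hD, hDF⟩ := ih (S \ U) hU2
    refine ⟨D, hDS.trans sdiff_subset, hD, ?_⟩
    rintro y (rfl | hy)
    · refine ⟨U, hU, ?_⟩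
      rw [Set.disjoint_left]
      exact fun x hx => (hDS hx).2
    · exact hDF y hy

/-! ### The space -/

/-- The compact space of all ultrafilters on the reals. -/
abbrev B : Type := Ultrafilter ℝ

/-- The underlying set of the example. -/
def Ex : Type := B × ℕ

/-- The point at a given level. -/
def pt (x : B) (n : ℕ) : Ex := (x, n)

/-- The level of a point. -/
def lev (p : Ex) : ℕ := p.2

/-- The ultrafilter of a point. -/
def fst (p : Ex) : B := p.1

lemma pt_inj {x y : B} {m n : ℕ} (h : pt x m = pt y n) : x = y ∧ m = n := by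
  exact Prod.mk.injEq _ _ _ _ ▸ h

instance instTop : TopologicalSpace Ex where
  IsOpen O := ∀ x n, pt x n ∈ O → ∃ U ∈ 𝓝 x, ∀ y ∈ U, y ≠ x → ∀ m, m < n → pt y m ∈ O
  isOpen_univ := fun _ _ _ => ⟨univ, Filter.univ_mem, fun _ _ _ _ _ => mem_univ _⟩
  isOpen_inter O P hO hP := by
    intro x n hx
    obtain ⟨U, hU, hU2⟩ := hO x n hx.1
    obtain ⟨V, hV, hV2⟩ := hP x n hx.2
    exact ⟨U ∩ V, Filter.inter_mem hU hV, fun y hy hyx m hm =>
      ⟨hU2 y hy.1 hyx m hm, hV2 y hy.2 hyx m hm⟩⟩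
  isOpen_sUnion S hS := by
    rintro x n ⟨O, hO, hx⟩
    obtain ⟨U, hU, hU2⟩ := hS O hO x n hx
    exact ⟨U, hU, fun y hy hyx m hm => ⟨O, hO, hU2 y hy hyx m hm⟩⟩

lemma isOpen_iff (O : Set Ex) : IsOpen O ↔
    ∀ x n, pt x n ∈ O → ∃ U ∈ 𝓝 x, ∀ y ∈ U, y ≠ x → ∀ m, m < n → pt y m ∈ O := Iff.rfl

/-- The basic neighbourhoods. -/
def nb (x : B) (n : ℕ) (U : Set B) : Set Ex := {p | p = pt x n ∨ (fst p ∈ U ∧ fst p ≠ x ∧ lev p < n)}

lemma nb_open (x : B) (n : ℕ) {U : Set B} (hU : IsOpen U) (hx : x ∈ U) : IsOpen (nb x n U) := by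
  rw [isOpen_iff]
  rintro y m (h | ⟨h1, h2, h3⟩)
  · obtain ⟨rfl, rfl⟩ := pt_inj h
    exact ⟨U, hU.mem_nhds hx, fun z hz hzy k hk => Or.inr ⟨hz, hzy, hk⟩⟩
  · refine ⟨U ∩ {x}ᶜ, (hU.inter isOpen_compl_singleton).mem_nhds ⟨h1, h2⟩, ?_⟩
    intro z hz _ k hk
    exact Or.inr ⟨hz.1, hz.2, hk.trans h3⟩

instance : T1Space Ex where
  t1 p := by
    rw [← isOpen_compl_iff, isOpen_iff]
    intro x n hx
    by_cases h : x = fst p
    · refine ⟨univ, Filter.univ_mem, fun y _ hy m _ h2 => ?_⟩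
      apply hy
      rw [h]
      rw [mem_singleton_iff] at h2
      rw [← h2]
      rfl
    · refine ⟨{fst p}ᶜ, isOpen_compl_singleton.mem_nhds h, fun y hy _ m _ h2 => ?_⟩
      apply hy
      rw [mem_singleton_iff] at h2
      rw [← h2]
      rfl

lemma uncountable_univ : ¬ (univ : Set Ex).Countable := by
  intro h
  have h1 := h.preimage_of_injOn (f := fun r : ℝ => pt (pure r) 0) (by
    intro a _ b _ hab
    exact Ultrafilter.pure_injective (pt_inj hab).1)
  rw [preimage_univ] at h1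
  exact Cardinal.not_countable_real h1

/-! ### Compact sets are finite -/

lemma compact_finite {K : Set Ex} (hK : IsCompact K) : K.Finite := by
  -- the levels of the points of K are bounded
  obtain ⟨n, hn⟩ := hK.elim_directed_cover (fun n : ℕ => {p : Ex | lev p ≤ n})
    (by
      intro n
      rw [isOpen_iff]
      intro x k hk
      refine ⟨univ, Filter.univ_mem, fun y _ _ m hm => ?_⟩
      have hk' : k ≤ n := hk
      exact (hm.le.trans hk' : m ≤ n))
    (by
      intro p _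
      exact mem_iUnion.2 ⟨lev p, le_refl (lev p)⟩)
    (by
      apply directed_of_isDirected_le
      intro n m hnm p hp
      exact le_trans hp hnm)
  have key : ∀ j, ∀ m, n < m + j → {x : B | pt x m ∈ K}.Finite := by
    intro j
    induction j with
    | zero =>
      intro m hm
      refine finite_empty.subset ?_
      intro x hx
      have h1 : m ≤ n := hn hx
      omega
    | succ j ih =>
      intro m hm
      by_contra hinf
      have hF : (⋃ l ∈ {l | m < l ∧ l ≤ n}, {x : B | pt x l ∈ K}).Finite := by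
        refine Set.Finite.biUnion ((finite_le_nat n).subset (fun l hl => hl.2)) ?_
        intro l hl
        exact ih l (by have := hl.1; omega)
      obtain ⟨D, hDS, hD, hDF⟩ := nc_finite _ hF _ hinf
      have hDK : (fun x => pt x m) '' D ⊆ K := by
        rintro _ ⟨x, hx, rfl⟩
        exact hDS hx
      have hDinf : ((fun x => pt x m) '' D).Infinite :=
        hD.image (fun x _ y _ h => (pt_inj h).1)
      obtain ⟨p, hp, hacc⟩ := hDinf.exists_accPt_of_subset_isCompact hK hDK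
      rw [accPt_iff_nhds] at hacc
      obtain ⟨x, l⟩ := p
      by_cases hl : l ≤ m
      · obtain ⟨q, ⟨hq, y, hy, rfl⟩, hne⟩ := hacc _ ((nb_open x l isOpen_univ (mem_univ x)).mem_nhds
          (Or.inl rfl))
        rcases hq with h | ⟨_, _, h3⟩
        · exact hne h
        · have h4 : m < l := h3
          omega
      · have hlm : m < l := not_le.1 hl
        have hln : l ≤ n := hn hp
        obtain ⟨U, hU, hU2⟩ := hDF x (mem_biUnion (x := l) ⟨hlm, hln⟩ hp)
        obtain ⟨V, hVU, hV, hxV⟩ := mem_nhds_iff.1 hU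
        obtain ⟨q, ⟨hq, y, hy, rfl⟩, hne⟩ := hacc _ ((nb_open x l hV hxV).mem_nhds
          (Or.inl rfl))
        rcases hq with h | ⟨h1, _, _⟩
        · exact hne h
        · exact Set.disjoint_left.1 hU2 hy (hVU h1)
  have h1 : (⋃ m ∈ {m | m ≤ n}, (fun x => pt x m) '' {x : B | pt x m ∈ K}).Finite :=
    Set.Finite.biUnion (finite_le_nat n) (fun m _ => (key (n + 1) m (by omega)).image _)
  refine h1.subset ?_
  intro p hp
  exact mem_biUnion (x := lev p) (hn hp) ⟨fst p, hp, rfl⟩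

/-! ### The Markov strategy in the finite-selection game -/

lemma exists_step (𝒰 : Set (Set Ex)) (n : ℕ) : ∃ ℱ : Set (Set Ex), IsKCover 𝒰 →
    ℱ ⊆ 𝒰 ∧ ℱ.Finite ∧ ∀ s : Fin n → Ex, (∀ i, lev (s i) ≤ n) → ∃ U ∈ ℱ, ∀ i, s i ∈ U := by
  by_cases h𝒰 : IsKCover 𝒰
  swap
  · exact ⟨∅, fun h => absurd h h𝒰⟩
  have hch : ∀ x : Fin n → B, ∃ U ∈ 𝒰, ∀ i, ∀ m ≤ n + 1, pt (x i) m ∈ U := by
    intro x
    obtain ⟨U, hU, hU2⟩ := h𝒰.2.2 (⋃ i, ⋃ m ∈ {m | m ≤ n + 1}, {pt (x i) m})
      (Set.Finite.isCompact (Set.finite_iUnion (fun i => Set.Finite.biUnion (finite_le_nat _)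
        (fun m _ => finite_singleton _))))
    refine ⟨U, hU, fun i m hm => hU2 ?_⟩
    exact mem_iUnion.2 ⟨i, mem_biUnion (x := m) hm rfl⟩
  choose U hU hUx using hch
  have hV : ∀ (x : Fin n → B) (i : Fin n), ∃ V ∈ 𝓝 (x i), ∀ y ∈ V, ∀ m, m < n + 1 →
      pt y m ∈ U x := by
    intro x i
    obtain ⟨V, hV, hV2⟩ := (isOpen_iff (U x)).1 (h𝒰.1 _ (hU x)) (x i) (n + 1)
      (hUx x i (n + 1) le_rfl)
    refine ⟨V, hV, fun y hy m hm => ?_⟩
    by_cases hyx : y = x i
    · rw [hyx]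
      exact hUx x i m hm.le
    · exact hV2 y hy hyx m hm
  choose V hVn hVU using hV
  obtain ⟨t, -, ht⟩ := (isCompact_univ (X := Fin n → B)).elim_nhds_subcover
    (fun x => Set.pi univ (V x)) (fun x _ => set_pi_mem_nhds finite_univ (fun i _ => hVn x i))
  refine ⟨U '' t, fun _ => ⟨?_, t.finite_toSet.image U, ?_⟩⟩
  · rintro _ ⟨x, _, rfl⟩
    exact hU x
  · intro s hs
    have h1 : (fun i => fst (s i)) ∈ ⋃ x ∈ t, Set.pi univ (V x) := ht (mem_univ _)
    simp only [mem_iUnion, exists_prop] at h1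
    obtain ⟨x, hx, hx2⟩ := h1
    refine ⟨U x, ⟨x, hx, rfl⟩, fun i => ?_⟩
    exact hVU x i (fst (s i)) (hx2 i (mem_univ i)) (lev (s i)) (Nat.lt_succ_of_le (hs i))

lemma markovKMenger : MarkovKMenger Ex := by
  choose 𝔉 hstep using exists_step
  refine ⟨𝔉, fun 𝒰 n h => ⟨(hstep 𝒰 n h).1, (hstep 𝒰 n h).2.1⟩, ?_⟩
  intro 𝒰 h𝒰
  have hs := fun n => hstep (𝒰 n) n (h𝒰 n)
  have hkey : ∀ K : Set Ex, K.Finite → ∃ n, ∃ U ∈ 𝔉 (𝒰 n) n, K ⊆ U := by
    intro K hK
    set l : List Ex := hK.toFinset.toList with hl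
    have hlmem : ∀ y, y ∈ l ↔ y ∈ K := by
      intro y
      rw [hl, Finset.mem_toList, Set.Finite.mem_toFinset]
    obtain ⟨b, hb⟩ := (hK.image lev).bddAbove
    set n := max l.length b with hn
    obtain ⟨U, hU, hsU⟩ := (hs n).2.2 (fun i => l.getD i (pt (pure 0) 0)) (by
      intro i
      by_cases hil : (i : ℕ) < l.length
      · rw [List.getD_eq_getElem _ _ hil]
        have := hb (mem_image_of_mem lev ((hlmem _).1 (List.getElem_mem hil)))
        exact this.trans (le_max_right _ _)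
      · rw [List.getD_eq_default _ _ (not_lt.1 hil)]
        exact Nat.zero_le n)
    refine ⟨n, U, hU, ?_⟩
    intro y hy
    obtain ⟨i, hi, hiy⟩ := List.getElem_of_mem ((hlmem y).2 hy)
    have := hsU ⟨i, lt_of_lt_of_le hi (le_max_left _ _)⟩
    simp only at this
    rw [List.getD_eq_getElem _ _ hi, hiy] at this
    exact this
  refine ⟨?_, ?_, ?_⟩
  · intro U hU
    obtain ⟨n, hn⟩ := mem_iUnion.1 hU
    exact (h𝒰 n).1 U ((hs n).1 hn)
  · rw [sUnion_eq_univ_iff]
    intro x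
    obtain ⟨n, U, hU, hxU⟩ := hkey {x} (finite_singleton x)
    exact ⟨U, mem_iUnion.2 ⟨n, hU⟩, hxU rfl⟩
  · intro K hK
    obtain ⟨n, U, hU, hKU⟩ := hkey K (compact_finite hK)
    exact ⟨U, mem_iUnion.2 ⟨n, hU⟩, hKU⟩

/-! ### No Markov strategy in the single-selection game -/

lemma not_markovKRothberger : ¬ MarkovKRothberger Ex := by
  rintro ⟨σ, hσ, hwin⟩
  have hfin : ∀ n, {x : Ex | ∀ 𝒰, IsKCover 𝒰 → x ∈ σ 𝒰 n}.Finite := by
    intro n
    by_contra hinf
    set E : Set Ex := {x : Ex | ∀ 𝒰, IsKCover 𝒰 → x ∈ σ 𝒰 n} with hE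
    have hinf' : E.Infinite := hinf
    have hcov : ∀ F : Set Ex, F.Finite → ∃ U, (IsOpen U ∧ ¬ E ⊆ U) ∧ F ⊆ U := by
      intro F hF
      obtain ⟨x, hxE, hxF⟩ := (hinf'.sdiff hF).nonempty
      refine ⟨{x}ᶜ, ⟨isOpen_compl_singleton, fun h => h hxE rfl⟩, ?_⟩
      rintro y hy rfl
      exact hxF hy
    have hk : IsKCover {U : Set Ex | IsOpen U ∧ ¬ E ⊆ U} := by
      refine ⟨fun U hU => hU.1, ?_, ?_⟩
      · rw [sUnion_eq_univ_iff]
        intro x
        obtain ⟨U, hU, hxU⟩ := hcov {x} (finite_singleton x)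
        exact ⟨U, hU, hxU rfl⟩
      · intro K hK
        exact hcov K (compact_finite hK)
    exact (hσ _ n hk).2 (fun x hx => hx _ hk)
  obtain ⟨x, hx⟩ : ∃ x : Ex, x ∉ ⋃ n, {x : Ex | ∀ 𝒰, IsKCover 𝒰 → x ∈ σ 𝒰 n} := by
    by_contra h
    push Not at h
    exact uncountable_univ ((countable_iUnion (fun n => (hfin n).countable)).mono
      (fun x _ => h x))
  have hch : ∀ n, ∃ 𝒰, IsKCover 𝒰 ∧ x ∉ σ 𝒰 n := by
    intro n
    by_contra h
    push Not at h
    exact hx (mem_iUnion.2 ⟨n, h⟩)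
  choose 𝒰 h𝒰 hx𝒰 using hch
  have h1 : x ∈ ⋃₀ (range fun n => σ (𝒰 n) n) := by
    rw [(hwin 𝒰 h𝒰).2.1]
    exact mem_univ _
  obtain ⟨_, ⟨n, rfl⟩, hn⟩ := h1
  exact hx𝒰 n hn

theorem result : ∃ (X : Type) (_ : TopologicalSpace X), T1Space X ∧
    MarkovKMenger X ∧ ¬ MarkovKRothberger X :=
  ⟨Ex, instTop, inferInstance, markovKMenger, not_markovKRothberger⟩

end Pool.Agent.Results.MP_41ff45_gt.UltrafilterTower
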